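import Pool.Agent.H216R3.StA4

/-!
A Steiner system `S(1809,9,2)` from a difference family over `(ℤ_2^3 × ℤ_3^2) × ℤ_5^2`: `24` base
blocks, six orbits of four blocks under the multiplier group `SL(2,3)` (modulo `±1`), each block
fixed by an element of order `3`; nine fixed points, the holes filled by the affine plane of order
`9`.
-/

set_option autoImplicit false

namespace Pool.Agent.TH983.ST

open Pool.Agent.H816R2.KM2 Pool.Agent.H216R3.StGrp

/-- base blocks over `(ℤ_2^3 × ℤ_3^2) × ℤ_5^2` -/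
def b1809 : List (List ℕ) :=
  [[646, 1657, 277, 1335, 962, 583, 1536, 1570, 1599],
   [1638, 1272, 1495, 929, 774, 1182, 539, 553, 593],
   [1461, 676, 443, 1171, 1389, 345, 965, 992, 948],
   [1031, 464, 1685, 1528, 363, 994, 733, 751, 796],
   [1228, 859, 498, 946, 557, 1377, 1126, 1163, 1191],
   [830, 667, 1083, 738, 1172, 995, 335, 359, 386],
   [1062, 1294, 229, 1361, 376, 1143, 1774, 1783, 1728],
   [1440, 274, 891, 331, 964, 1585, 1330, 1368, 1382],
   [1222, 815, 418, 1314, 904, 517, 336, 770, 1799],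
   [823, 601, 1006, 919, 715, 1121, 1539, 1753, 1393],
   [1005, 1209, 216, 1102, 1306, 322, 565, 1592, 748],
   [1411, 202, 817, 1523, 320, 912, 1733, 1151, 596],
   [19, 5, 6, 733, 1760, 387, 929, 567, 1389],
   [16, 2, 12, 1732, 1354, 1599, 740, 1171, 994],
   [10, 13, 7, 1570, 796, 539, 1356, 397, 1127],
   [22, 4, 9, 1144, 553, 1788, 345, 962, 1598],
   [426, 1263, 891, 1339, 954, 592, 731, 1769, 380],
   [1035, 859, 686, 944, 765, 1196, 1737, 1366, 1577],
   [274, 1083, 1228, 1152, 1381, 347, 1557, 785, 538],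
   [830, 1468, 282, 1548, 370, 987, 1134, 572, 1779],
   [619, 1605, 206, 749, 1761, 395, 1135, 1162, 1183],
   [1616, 1202, 1412, 1743, 1364, 1578, 329, 374, 382],
   [1410, 613, 407, 1573, 790, 542, 1771, 1789, 1745],
   [1022, 404, 1609, 1146, 558, 1776, 1328, 1363, 1394]]

theorem s1809 : ∃ 𝓑 : Set (Finset (Fin 1809)), IsS2 (Fin 1809) 9 𝓑 :=
  main (ofCoded (codedP 2 (codedP 2 (codedP 2 (codedP 3 (codedZ 3)))))) (codedP 5 (codedZ 5))
    9 9 1809 (by decide) b1809 ag9 ag9f (by decide +kernel)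
    ag9_ok ag9f_ok (by decide +kernel) (coverB_spec ag9_cover) (by decide +kernel)

end Pool.Agent.TH983.ST
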