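import Pool.Agent.H216R3.StA4

/-!
A Steiner system `S(3321,9,2)` from a difference family over `(ℤ_3^2 × ℤ_3^2) × 𝔽_41`: all base
blocks are fixed by the automorphism `(x, y, u) ↦ (x, -y, -u)`, and the family is invariant under
an automorphism of order `40`.
-/

set_option autoImplicit false

namespace Pool.Agent.TH983.ST

open Pool.Agent.H816R2.KM2 Pool.Agent.H216R3.StGrp

/-- base blocks over `ℤ_3^4 × ℤ_41` -/
def b3321 : List (List ℕ) :=
  [[0, 1319, 2772, 675, 3301, 2453, 2025, 1047, 1824],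
   [0, 2010, 1052, 1836, 1315, 2787, 670, 3289, 2457],
   [0, 662, 3319, 2447, 2027, 1060, 1806, 1325, 2770],
   [0, 1840, 1341, 2751, 682, 3285, 2431, 2046, 1040],
   [0, 2430, 2019, 1049, 1837, 1342, 2778, 673, 3288],
   [0, 2306, 1220, 1813, 3312, 1248, 2360, 1682, 3197],
   [0, 2725, 1990, 2432, 1340, 1912, 2639, 2384, 1306],
   [0, 811, 419, 2784, 2013, 648, 992, 2906, 2137],
   [0, 3226, 1735, 1042, 680, 1592, 3041, 1077, 727],
   [0, 1193, 2333, 3300, 1825, 2377, 1231, 3182, 1697],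
   [0, 1992, 2723, 1350, 2422, 2659, 1892, 1298, 2392],
   [0, 431, 799, 2032, 2765, 989, 651, 2171, 2872],
   [0, 1725, 3236, 671, 1051, 3064, 1569, 726, 1078],
   [0, 2314, 1212, 1812, 3313, 1246, 2362, 1691, 3188],
   [0, 2732, 1983, 2426, 1346, 1900, 2651, 2397, 1293],
   [0, 812, 418, 2748, 2049, 617, 1023, 2902, 2141],
   [0, 3232, 1729, 1031, 691, 1570, 3063, 1094, 710],
   [0, 1229, 2297, 3316, 1809, 2368, 1240, 3161, 1718],
   [0, 2003, 2712, 1323, 2449, 2646, 1905, 1295, 2395],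
   [0, 415, 815, 2034, 2763, 993, 647, 2153, 2890],
   [0, 1752, 3209, 683, 1039, 3047, 1586, 700, 1104],
   [0, 2312, 1214, 1843, 3282, 1267, 2341, 1699, 3180],
   [0, 2720, 1995, 2448, 1324, 1903, 2648, 2404, 1286],
   [0, 781, 449, 2757, 2040, 635, 1005, 2903, 2140],
   [0, 3210, 1751, 1044, 678, 1596, 3037, 1100, 704],
   [0, 411, 819, 1232, 2376, 1318, 2454, 302, 313],
   [0, 1728, 3233, 1898, 2653, 2045, 2752, 336, 361],
   [0, 2332, 1194, 646, 994, 667, 1055, 212, 239],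
   [0, 2717, 1998, 1580, 3053, 1829, 3296, 165, 204],
   [0, 804, 426, 2346, 1262, 2446, 1326, 293, 322],
   [0, 3225, 1736, 2637, 1914, 2786, 2011, 364, 333],
   [0, 1228, 2298, 1021, 619, 1054, 668, 216, 235],
   [0, 1997, 2718, 3051, 1582, 3290, 1835, 189, 180],
   [0, 420, 810, 1250, 2358, 1331, 2441, 314, 301],
   [0, 1741, 3220, 1924, 2627, 2041, 2756, 367, 330],
   [0, 2328, 1198, 638, 1002, 684, 1038, 234, 217],
   [0, 2734, 1981, 1573, 3060, 1808, 3317, 174, 195],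
   [0, 783, 447, 2345, 1263, 2443, 1329, 306, 309],
   [0, 3222, 1739, 2631, 1920, 2768, 2029, 360, 337],
   [0, 1210, 2316, 985, 655, 1028, 694, 233, 218],
   [0, 1971, 2744, 3040, 1593, 3298, 1827, 168, 201],
   [0, 428, 802, 1266, 2342, 1338, 2434, 311, 304],
   [0, 1748, 3213, 1897, 2654, 2042, 2755, 349, 348],
   [0, 2329, 1197, 640, 1000, 690, 1032, 208, 243],
   [0, 2740, 1975, 1585, 3048, 1844, 3281, 182, 187]]

theorem s3321 : ∃ 𝓑 : Set (Finset (Fin 3321)), IsS2 (Fin 3321) 9 𝓑 :=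
  main (ofCoded (codedP 3 (codedP 3 (codedP 3 (codedZ 3))))) (codedZ 41) 9 0 3321
    (by decide) b3321 (ag9 ++ ag9f) [] (by decide +kernel)
    (by decide +kernel) (by decide +kernel) (by decide +kernel)
    (coverB_spec (by decide +kernel)) (by decide +kernel)

end Pool.Agent.TH983.ST
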